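import Pool.Agent.Q278.GC.Stm

/-!
# Covariance of the prime sums, uniform in shifts and scales (helper129)

Job CV of project GC of helper278.
-/

set_option autoImplicit false

namespace Pool.Agent.Q129.GC

open MeasureTheory Filter Topology Complex
open scoped ComplexConjugate FourierTransform
open Pool.Agent.Q278.MC Pool.Agent.Q278.MX Pool.Agent.Q278.GC

/-- the Fourier transform of a moved and scaled function -/
lemma four_sf (g : ℝ → ℝ) {x s : ℝ} (hs : 0 < s) (ξ : ℝ) :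
    𝓕 (fc (sf g x s)) ξ =
      (s : ℂ) * (cexp ((-2 * Real.pi * x * I) * ξ) * 𝓕 (fc g) (s * ξ)) := by
  rw [Real.fourier_real_eq_integral_exp_smul, Real.fourier_real_eq_integral_exp_smul]
  set φ : ℝ → ℂ := fun u => cexp (↑(-2 * Real.pi * (s * u + x) * ξ) * I) • fc g u with hφ
  have h1 : (fun v : ℝ => cexp (↑(-2 * Real.pi * v * ξ) * I) • fc (sf g x s) v) =
      fun v => φ ((v - x) / s) := by
    funext v
    simp only [hφ, fc, sf]
    have : s * ((v - x) / s) + x = v := by field_simp; ring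
    rw [this]
  rw [h1]
  have h2 : ∫ v, φ ((v - x) / s) = ∫ v, φ (v / s) :=
    integral_sub_right_eq_self (fun v => φ (v / s)) x
  rw [h2, Measure.integral_comp_div, abs_of_pos hs, Complex.real_smul]
  congr 1
  rw [← integral_const_mul]
  refine integral_congr_ae (Eventually.of_forall fun u => ?_)
  simp only [hφ, smul_eq_mul]
  rw [← mul_assoc, ← Complex.exp_add]
  congr 2
  push_cast
  ring

/-- the weight -/
noncomputable def w0 (M ξ : ℝ) : ℝ := (1 + (ξ / M) ^ 2)⁻¹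

lemma w0_pos (M ξ : ℝ) : 0 < w0 M ξ := by unfold w0; positivity

lemma w0_le_one (M ξ : ℝ) : w0 M ξ ≤ 1 := by
  unfold w0
  exact inv_le_one_of_one_le₀ (by nlinarith [sq_nonneg (ξ / M)])

lemma w0_mul {M : ℝ} (hM : 1 ≤ M) (ξ : ℝ) : |ξ| * w0 M ξ ≤ M := by
  have hM0 : 0 < M := by linarith
  unfold w0
  rw [← div_eq_mul_inv, div_le_iff₀ (by positivity), mul_add, mul_one]
  have h1 : M * (ξ / M) ^ 2 = ξ ^ 2 / M := by field_simp
  rw [h1]
  have h2 : M + ξ ^ 2 / M - |ξ| = (M ^ 2 + ξ ^ 2 - |ξ| * M) / M := by field_simp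
  have h3 : 0 ≤ M ^ 2 + ξ ^ 2 - |ξ| * M := by
    rw [← sq_abs ξ]
    nlinarith [sq_nonneg (|ξ| - M), abs_nonneg ξ, sq_nonneg (|ξ|)]
  have h4 : 0 ≤ (M ^ 2 + ξ ^ 2 - |ξ| * M) / M := by positivity
  linarith

lemma w0_tail {M ξ : ℝ} (hM : 1 ≤ M) (hξ : 0 < ξ) : w0 M ξ ≤ M ^ 2 / ξ ^ 2 := by
  have hM0 : 0 < M := by linarith
  unfold w0
  rw [← inv_div (ξ ^ 2)]
  apply inv_anti₀ (by positivity)
  rw [← div_pow]
  linarith

lemma w0_int (M : ℝ) (hM : 1 ≤ M) : Integrable (w0 M) := by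
  exact integrable_inv_one_add_sq.comp_div (by linarith : M ≠ 0)

lemma w0_integral (M : ℝ) (hM : 1 ≤ M) : ∫ ξ, w0 M ξ = M * Real.pi := by
  have h := Measure.integral_comp_div (fun x : ℝ => (1 + x ^ 2)⁻¹) M
  rw [integral_univ_inv_one_add_sq, abs_of_pos (by linarith)] at h
  exact h

/-- the general statement -/
lemma key {C0 : ℝ} (hC0 : 1 ≤ C0) (hband : ∀ (α β : ℝ) (H H' : ℝ → ℝ), 0 ≤ α → α ≤ β →
    (∀ v ∈ Set.Icc α β, HasDerivAt H (H' v) v) → ContinuousOn H' (Set.Icc α β) →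
    |(∑ p ∈ PB α β, Real.log p / p * H (Real.log p)) - ∫ v in α..β, H v| ≤
      C0 * (|H β| + ∫ v in α..β, |H' v|))
    {F1 F2 D1 D2 : ℝ → ℂ} (hd1 : ∀ ξ, HasDerivAt F1 (D1 ξ) ξ) (hd2 : ∀ ξ, HasDerivAt F2 (D2 ξ) ξ)
    (hc1 : Continuous D1) (hc2 : Continuous D2) {K M : ℝ} (hK : 0 < K) (hM : 1 ≤ M)
    (b1 : ∀ ξ, ‖F1 ξ‖ ≤ K * w0 M ξ ^ 3) (b2 : ∀ ξ, ‖F2 ξ‖ ≤ K * w0 M ξ ^ 3)
    (b3 : ∀ ξ, ‖D1 ξ‖ ≤ K * M * w0 M ξ ^ 3) (b4 : ∀ ξ, ‖D2 ξ‖ ≤ K * M * w0 M ξ ^ 3)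
    {a β B : ℝ} (ha : 1 ≤ a) (hβ : 1 ≤ β) (hB : β ≤ B) :
    |(∑ p ∈ PB β B, (1 / (Real.pi * a)) ^ 2 * (Real.log p ^ 2 / p *
        inner ℝ (F2 (Real.log p / (2 * Real.pi * a))) (F1 (Real.log p / (2 * Real.pi * a))))) -
      4 * ∫ ξ in Set.Ioi (0 : ℝ), ξ * inner ℝ (F2 ξ) (F1 ξ)| ≤
      7 * C0 * K ^ 2 * M ^ 4 * (β ^ 2 / a ^ 2 + 1 / a + 1 / (B / (2 * Real.pi * a)) ^ 2) := by
  have hpi := Real.pi_gt_three
  have hM0 : 0 < M := by linarith
  have ha0 : 0 < a := by linarith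
  have hβ0 : 0 < β := by linarith
  have hB0 : 0 < B := by linarith
  set b : ℝ := 2 * Real.pi * a with hb
  have hb0 : 0 < b := by positivity
  set ρ : ℝ → ℝ := fun ξ => inner ℝ (F2 ξ) (F1 ξ) with hρ
  set ρ' : ℝ → ℝ := fun ξ => inner ℝ (F2 ξ) (D1 ξ) + inner ℝ (D2 ξ) (F1 ξ) with hρ'
  have hρd : ∀ ξ, HasDerivAt ρ (ρ' ξ) ξ := fun ξ => (hd2 ξ).inner ℝ (hd1 ξ)
  set G : ℝ → ℝ := fun ξ => ξ * ρ ξ with hG
  set G' : ℝ → ℝ := fun ξ => 1 * ρ ξ + ξ * ρ' ξ with hG'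
  have hGd : ∀ ξ, HasDerivAt G (G' ξ) ξ := fun ξ => (hasDerivAt_id ξ).mul (hρd ξ)
  have hcF1 : Continuous F1 := continuous_iff_continuousAt.2 fun ξ => (hd1 ξ).continuousAt
  have hcF2 : Continuous F2 := continuous_iff_continuousAt.2 fun ξ => (hd2 ξ).continuousAt
  have hρc : Continuous ρ := hcF2.inner hcF1
  have hρ'c : Continuous ρ' := (hcF2.inner hc1).add (hc2.inner hcF1)
  have hGc : Continuous G := continuous_id.mul hρc
  have hG'c : Continuous G' := (continuous_const.mul hρc).add (continuous_id.mul hρ'c)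
  -- bounds
  have hρb : ∀ ξ, |ρ ξ| ≤ K ^ 2 * w0 M ξ ^ 6 := by
    intro ξ
    have hw := w0_pos M ξ
    refine (abs_real_inner_le_norm _ _).trans ?_
    calc ‖F2 ξ‖ * ‖F1 ξ‖ ≤ (K * w0 M ξ ^ 3) * (K * w0 M ξ ^ 3) :=
          mul_le_mul (b2 ξ) (b1 ξ) (norm_nonneg _) (by positivity)
      _ = _ := by ring
  have hρ'b : ∀ ξ, |ρ' ξ| ≤ 2 * K ^ 2 * M * w0 M ξ ^ 6 := by
    intro ξ
    have hw := w0_pos M ξ
    refine (abs_add_le _ _).trans ?_
    have g1 : |inner ℝ (F2 ξ) (D1 ξ)| ≤ (K * w0 M ξ ^ 3) * (K * M * w0 M ξ ^ 3) :=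
      (abs_real_inner_le_norm _ _).trans
        (mul_le_mul (b2 ξ) (b3 ξ) (norm_nonneg _) (by positivity))
    have g2 : |inner ℝ (D2 ξ) (F1 ξ)| ≤ (K * M * w0 M ξ ^ 3) * (K * w0 M ξ ^ 3) :=
      (abs_real_inner_le_norm _ _).trans
        (mul_le_mul (b4 ξ) (b1 ξ) (norm_nonneg _) (by positivity))
    calc _ ≤ (K * w0 M ξ ^ 3) * (K * M * w0 M ξ ^ 3) + (K * M * w0 M ξ ^ 3) * (K * w0 M ξ ^ 3) :=
          add_le_add g1 g2
      _ = _ := by ring
  have hGb : ∀ ξ, |G ξ| ≤ K ^ 2 * M * w0 M ξ := by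
    intro ξ
    have hw := w0_pos M ξ
    have hw1 := w0_le_one M ξ
    have hw2 := w0_mul hM ξ
    simp only [hG]
    rw [abs_mul]
    calc |ξ| * |ρ ξ| ≤ |ξ| * (K ^ 2 * w0 M ξ ^ 6) :=
          mul_le_mul_of_nonneg_left (hρb ξ) (abs_nonneg _)
      _ = K ^ 2 * (|ξ| * w0 M ξ) * w0 M ξ * w0 M ξ ^ 4 := by ring
      _ ≤ K ^ 2 * M * w0 M ξ * 1 := by
          gcongr
          exact pow_le_one₀ hw.le hw1
      _ = _ := by ring
  have hGb1 : ∀ ξ, |G ξ| ≤ K ^ 2 * M := fun ξ => (hGb ξ).trans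
    (mul_le_of_le_one_right (by positivity) (w0_le_one M ξ))
  have hGb2 : ∀ ξ, |G ξ| ≤ K ^ 2 * |ξ| := by
    intro ξ
    have hw := w0_pos M ξ
    simp only [hG]
    rw [abs_mul, mul_comm (K ^ 2)]
    refine mul_le_mul_of_nonneg_left ((hρb ξ).trans ?_) (abs_nonneg _)
    exact mul_le_of_le_one_right (by positivity) (pow_le_one₀ hw.le (w0_le_one M ξ))
  have hGb3 : ∀ ξ, 0 < ξ → |G ξ| ≤ K ^ 2 * M ^ 4 * ξ ^ (-3 : ℝ) := by
    intro ξ hξ
    have hw := w0_pos M ξ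
    have hw1 := w0_le_one M ξ
    simp only [hG]
    rw [abs_mul, abs_of_pos hξ]
    have e1 : ξ ^ (-3 : ℝ) = (ξ ^ 3)⁻¹ := by
      rw [Real.rpow_neg hξ.le]
      congr 1
      exact_mod_cast Real.rpow_natCast ξ 3
    rw [e1]
    have h1 : w0 M ξ ^ 6 ≤ (M ^ 2 / ξ ^ 2) ^ 2 := by
      calc w0 M ξ ^ 6 ≤ w0 M ξ ^ 2 := pow_le_pow_of_le_one hw.le hw1 (by norm_num)
        _ ≤ _ := pow_le_pow_left₀ hw.le (w0_tail hM hξ) 2
    calc ξ * |ρ ξ| ≤ ξ * (K ^ 2 * (M ^ 2 / ξ ^ 2) ^ 2) :=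
          mul_le_mul_of_nonneg_left ((hρb ξ).trans
            (mul_le_mul_of_nonneg_left h1 (by positivity))) hξ.le
      _ = _ := by field_simp
  have hG'b : ∀ ξ, |G' ξ| ≤ 3 * K ^ 2 * M ^ 2 * w0 M ξ := by
    intro ξ
    have hw := w0_pos M ξ
    have hw1 := w0_le_one M ξ
    have hw2 := w0_mul hM ξ
    simp only [hG']
    refine (abs_add_le _ _).trans ?_
    rw [one_mul, abs_mul]
    have hM2 : 1 ≤ M ^ 2 := by nlinarith
    have g1 : |ρ ξ| ≤ K ^ 2 * M ^ 2 * w0 M ξ := by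
      refine (hρb ξ).trans ?_
      calc K ^ 2 * w0 M ξ ^ 6 = K ^ 2 * 1 * w0 M ξ * w0 M ξ ^ 5 := by ring
        _ ≤ K ^ 2 * M ^ 2 * w0 M ξ * 1 := by
            gcongr
            exact pow_le_one₀ hw.le hw1
        _ = _ := by ring
    have g2 : |ξ| * |ρ' ξ| ≤ 2 * K ^ 2 * M ^ 2 * w0 M ξ := by
      calc |ξ| * |ρ' ξ| ≤ |ξ| * (2 * K ^ 2 * M * w0 M ξ ^ 6) :=
            mul_le_mul_of_nonneg_left (hρ'b ξ) (abs_nonneg _)
        _ = 2 * K ^ 2 * M * (|ξ| * w0 M ξ) * w0 M ξ * w0 M ξ ^ 4 := by ring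
        _ ≤ 2 * K ^ 2 * M * M * w0 M ξ * 1 := by
            gcongr
            exact pow_le_one₀ hw.le hw1
        _ = _ := by ring
    linarith
  have hwi := w0_int M hM
  have hwI := w0_integral M hM
  have hGi : Integrable G := (hwi.const_mul (K ^ 2 * M)).mono' hGc.aestronglyMeasurable
    (Eventually.of_forall hGb)
  have hG'i : Integrable G' := (hwi.const_mul (3 * K ^ 2 * M ^ 2)).mono' hG'c.aestronglyMeasurable
    (Eventually.of_forall hG'b)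
  have hG'I : ∫ ξ, |G' ξ| ≤ 3 * K ^ 2 * M ^ 3 * Real.pi := by
    calc ∫ ξ, |G' ξ| ≤ ∫ ξ, 3 * K ^ 2 * M ^ 2 * w0 M ξ :=
          integral_mono hG'i.abs (hwi.const_mul _) hG'b
      _ = 3 * K ^ 2 * M ^ 2 * (M * Real.pi) := by rw [integral_const_mul, hwI]
      _ = _ := by ring
  -- the sum
  set H : ℝ → ℝ := fun v => b * G (v / b) with hH
  have hHd : ∀ v, HasDerivAt H (G' (v / b)) v := by
    intro v
    have h1 : HasDerivAt (fun v : ℝ => v / b) (1 / b) v := (hasDerivAt_id v).div_const b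
    have h2 := ((hGd (v / b)).comp v h1).const_mul b
    refine h2.congr_deriv ?_
    field_simp
  have hb1 := hband β B H (fun v => G' (v / b)) hβ0.le hB (fun v _ => hHd v)
    ((hG'c.comp (continuous_id.div_const b)).continuousOn)
  have e1 : ∑ p ∈ PB β B, (1 / (Real.pi * a)) ^ 2 * (Real.log p ^ 2 / p *
        inner ℝ (F2 (Real.log p / b)) (F1 (Real.log p / b))) =
      (1 / (Real.pi * a)) ^ 2 * ∑ p ∈ PB β B, Real.log p / p * H (Real.log p) := by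
    rw [Finset.mul_sum]
    refine Finset.sum_congr rfl fun p _ => ?_
    simp only [hH, hG, hρ]
    field_simp
  have e2 : ∫ v in β..B, H v = b ^ 2 * ∫ ξ in (β / b)..(B / b), G ξ := by
    simp only [hH]
    rw [intervalIntegral.integral_const_mul, intervalIntegral.integral_comp_div G hb0.ne',
      smul_eq_mul]
    ring
  have e3 : ∫ v in β..B, |G' (v / b)| = b * ∫ ξ in (β / b)..(B / b), |G' ξ| := by
    rw [intervalIntegral.integral_comp_div (fun ξ => |G' ξ|) hb0.ne', smul_eq_mul]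
  have hβB : β / b ≤ B / b := div_le_div_of_nonneg_right hB hb0.le
  have e4 : ∫ ξ in (β / b)..(B / b), |G' ξ| ≤ 3 * K ^ 2 * M ^ 3 * Real.pi := by
    rw [intervalIntegral.integral_of_le hβB]
    exact (setIntegral_le_integral hG'i.abs (Eventually.of_forall fun ξ => abs_nonneg _)).trans hG'I
  have hc : (1 / (Real.pi * a)) ^ 2 * b ^ 2 = 4 := by
    rw [hb]; field_simp; ring
  have hc1' : (1 / (Real.pi * a)) ^ 2 * b = (2 / Real.pi) * (1 / a) := by
    rw [hb]; field_simp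
  set cc : ℝ := (1 / (Real.pi * a)) ^ 2 with hcc
  have hcc0 : 0 ≤ cc := by positivity
  have hM3 : M ^ 3 ≤ M ^ 4 := pow_le_pow_right₀ hM (by norm_num)
  have hM1 : M ≤ M ^ 4 := by
    calc M = M ^ 1 := (pow_one M).symm
      _ ≤ M ^ 4 := pow_le_pow_right₀ hM (by norm_num)
  -- first error
  have E1 : |cc * (∑ p ∈ PB β B, Real.log p / p * H (Real.log p)) -
      4 * ∫ ξ in (β / b)..(B / b), G ξ| ≤ 7 * C0 * K ^ 2 * M ^ 4 * (1 / a) := by
    have h1 : cc * (∑ p ∈ PB β B, Real.log p / p * H (Real.log p)) -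
        4 * ∫ ξ in (β / b)..(B / b), G ξ =
        cc * ((∑ p ∈ PB β B, Real.log p / p * H (Real.log p)) - ∫ v in β..B, H v) := by
      rw [e2, mul_sub, ← mul_assoc, hc]
    rw [h1, abs_mul, abs_of_nonneg hcc0]
    have h2 : |H B| ≤ b * (K ^ 2 * M) := by
      simp only [hH]
      rw [abs_mul, abs_of_pos hb0]
      exact mul_le_mul_of_nonneg_left (hGb1 _) hb0.le
    have h3 : C0 * (|H B| + ∫ v in β..B, |G' (v / b)|) ≤
        C0 * (b * (K ^ 2 * M) + b * (3 * K ^ 2 * M ^ 3 * Real.pi)) := by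
      refine mul_le_mul_of_nonneg_left (add_le_add h2 ?_) (by linarith)
      rw [e3]
      exact mul_le_mul_of_nonneg_left e4 hb0.le
    calc cc * |(∑ p ∈ PB β B, Real.log p / p * H (Real.log p)) - ∫ v in β..B, H v| ≤
          cc * (C0 * (b * (K ^ 2 * M) + b * (3 * K ^ 2 * M ^ 3 * Real.pi))) :=
          mul_le_mul_of_nonneg_left (hb1.trans h3) hcc0
      _ = (cc * b) * (C0 * K ^ 2 * (M + 3 * M ^ 3 * Real.pi)) := by ring
      _ = (2 / Real.pi) * (1 / a) * (C0 * K ^ 2 * (M + 3 * M ^ 3 * Real.pi)) := by rw [hc1']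
      _ = (2 / Real.pi) * (C0 * K ^ 2 * M * (1 / a)) + 6 * (C0 * K ^ 2 * M ^ 3 * (1 / a)) := by
          field_simp
          ring
      _ ≤ 1 * (C0 * K ^ 2 * M ^ 4 * (1 / a)) + 6 * (C0 * K ^ 2 * M ^ 4 * (1 / a)) := by
          have h4 : 2 / Real.pi ≤ 1 := by
            rw [div_le_one (by positivity)]
            linarith
          gcongr
      _ = _ := by ring
  -- the tails
  have hβb : 0 ≤ β / b := by positivity
  have hY : 0 < B / b := by positivity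
  have s1 : (∫ ξ in (0 : ℝ)..(β / b), G ξ) + ∫ ξ in Set.Ioi (β / b), G ξ =
      ∫ ξ in Set.Ioi (0 : ℝ), G ξ :=
    intervalIntegral.integral_interval_add_Ioi hGi.integrableOn hGi.integrableOn
  have s2 : (∫ ξ in (β / b)..(B / b), G ξ) + ∫ ξ in Set.Ioi (B / b), G ξ =
      ∫ ξ in Set.Ioi (β / b), G ξ :=
    intervalIntegral.integral_interval_add_Ioi hGi.integrableOn hGi.integrableOn
  have E2 : |∫ ξ in (0 : ℝ)..(β / b), G ξ| ≤ K ^ 2 * (β ^ 2 / a ^ 2) / 36 := by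
    have h1 := intervalIntegral.norm_integral_le_of_norm_le_const (a := 0) (b := β / b) (f := G)
      (C := K ^ 2 * (β / b)) (fun ξ hξ => by
        rw [Set.uIoc_of_le hβb] at hξ
        rw [Real.norm_eq_abs]
        refine (hGb2 ξ).trans ?_
        rw [abs_of_pos hξ.1]
        exact mul_le_mul_of_nonneg_left hξ.2 (by positivity))
    rw [sub_zero, abs_of_nonneg hβb, Real.norm_eq_abs] at h1
    refine h1.trans ?_
    have h2 : 36 * a ^ 2 ≤ b ^ 2 := by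
      rw [hb]
      nlinarith [mul_pos ha0 ha0, sq_nonneg (Real.pi - 3)]
    have h3 : K ^ 2 * (β / b) * (β / b) = K ^ 2 * (β ^ 2 / b ^ 2) := by ring
    have h4 : K ^ 2 * (β ^ 2 / a ^ 2) / 36 = K ^ 2 * (β ^ 2 / (36 * a ^ 2)) := by field_simp
    rw [h3, h4]
    gcongr
  have E3 : |∫ ξ in Set.Ioi (B / b), G ξ| ≤ K ^ 2 * M ^ 4 * (1 / (B / b) ^ 2) / 2 := by
    have h1 : ∫ ξ in Set.Ioi (B / b), K ^ 2 * M ^ 4 * ξ ^ (-3 : ℝ) =
        K ^ 2 * M ^ 4 * (1 / (B / b) ^ 2) / 2 := by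
      rw [integral_const_mul, integral_Ioi_rpow_of_lt (by norm_num) hY]
      have e5 : (-3 : ℝ) + 1 = -2 := by norm_num
      rw [e5]
      have e6 : (B / b) ^ (-2 : ℝ) = 1 / (B / b) ^ 2 := by
        rw [Real.rpow_neg hY.le, one_div]
        congr 1
        exact_mod_cast Real.rpow_natCast (B / b) 2
      rw [e6]
      ring
    rw [← h1, ← Real.norm_eq_abs]
    refine norm_integral_le_of_norm_le ((integrableOn_Ioi_rpow_of_lt (by norm_num) hY).const_mul _) ?_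
    refine (ae_restrict_iff' measurableSet_Ioi).2 (Eventually.of_forall fun ξ hξ => ?_)
    exact hGb3 ξ (hY.trans hξ)
  rw [e1]
  have h9 : cc * (∑ p ∈ PB β B, Real.log p / p * H (Real.log p)) - 4 * ∫ ξ in Set.Ioi (0 : ℝ), G ξ =
      (cc * (∑ p ∈ PB β B, Real.log p / p * H (Real.log p)) - 4 * ∫ ξ in (β / b)..(B / b), G ξ) -
      4 * (∫ ξ in (0 : ℝ)..(β / b), G ξ) - 4 * ∫ ξ in Set.Ioi (B / b), G ξ := by
    rw [← s1, ← s2]; ring
  have h10 := abs_le.1 E1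
  have h11 := abs_le.1 E2
  have h12 := abs_le.1 E3
  have hA : 0 ≤ K ^ 2 * (β ^ 2 / a ^ 2) := by positivity
  have hA2 : 0 ≤ K ^ 2 * M ^ 4 * (1 / (B / b) ^ 2) := by positivity
  have hCM : 1 ≤ C0 * M ^ 4 := by
    have : 1 ≤ M ^ 4 := one_le_pow₀ hM
    nlinarith
  have hA1 : K ^ 2 * (β ^ 2 / a ^ 2) ≤ C0 * M ^ 4 * (K ^ 2 * (β ^ 2 / a ^ 2)) :=
    le_mul_of_one_le_left hA hCM
  have hA3 : K ^ 2 * M ^ 4 * (1 / (B / b) ^ 2) ≤ C0 * (K ^ 2 * M ^ 4 * (1 / (B / b) ^ 2)) :=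
    le_mul_of_one_le_left hA2 hC0
  have hfin : 7 * C0 * K ^ 2 * M ^ 4 * (β ^ 2 / a ^ 2 + 1 / a + 1 / (B / b) ^ 2) =
      7 * (C0 * M ^ 4 * (K ^ 2 * (β ^ 2 / a ^ 2))) + 7 * C0 * K ^ 2 * M ^ 4 * (1 / a) +
        7 * (C0 * (K ^ 2 * M ^ 4 * (1 / (B / b) ^ 2))) := by ring
  rw [hfin]
  show |cc * (∑ p ∈ PB β B, Real.log p / p * H (Real.log p)) - 4 * ∫ ξ in Set.Ioi (0 : ℝ), G ξ| ≤ _
  rw [h9, abs_le]
  constructor <;> linarith [h10.1, h10.2, h11.1, h11.2, h12.1, h12.2]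

theorem t_CV : S_CV := by
  intro g hg
  obtain ⟨C0, hC0, hband⟩ := band_sum
  obtain ⟨K0, hK0, h0⟩ := four_bound hg
  obtain ⟨K1, hK1, h1⟩ := four_bound hg.mulc
  have hpi := Real.pi_gt_three
  set K : ℝ := 2 * Real.pi * K0 + K1 with hKd
  have hK : 0 < K := by positivity
  set m : ℝ → ℂ := fun x : ℝ => (-2 * Real.pi * I * x) * fc g x with hm
  have hcg : Continuous (𝓕 (fc g)) :=
    continuous_iff_continuousAt.2 fun ξ => (four_deriv hg ξ).continuousAt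
  have hcm : Continuous (𝓕 m) :=
    continuous_iff_continuousAt.2 fun ξ => (four_deriv hg.mulc ξ).continuousAt
  -- the data of one function
  have hone : ∀ (M x s : ℝ), 1 ≤ M → |x| ≤ M → 1 / M ≤ s → s ≤ 1 → ∃ D : ℝ → ℂ,
      (∀ ξ, HasDerivAt (𝓕 (fc (sf g x s))) (D ξ) ξ) ∧ Continuous D ∧
      (∀ ξ, ‖𝓕 (fc (sf g x s)) ξ‖ ≤ K * w0 M ξ ^ 3) ∧ (∀ ξ, ‖D ξ‖ ≤ K * M * w0 M ξ ^ 3) := by
    intro M x s hM hx hs hs1
    have hM0 : 0 < M := by linarith
    have hs0 : 0 < s := lt_of_lt_of_le (by positivity) hs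
    have hwt : ∀ ξ : ℝ, (1 + (s * ξ) ^ 2)⁻¹ ^ 3 ≤ w0 M ξ ^ 3 := by
      intro ξ
      refine pow_le_pow_left₀ (by positivity) ?_ 3
      unfold w0
      apply inv_anti₀ (by positivity)
      have h2 : (ξ / M) ^ 2 = (1 / M) ^ 2 * ξ ^ 2 := by ring
      rw [h2, mul_pow]
      have h3 : (1 / M) ^ 2 ≤ s ^ 2 := pow_le_pow_left₀ (by positivity) hs 2
      have := mul_le_mul_of_nonneg_right h3 (sq_nonneg ξ)
      linarith
    have hex : ∀ ξ : ℝ, ‖cexp ((-2 * Real.pi * x * I) * ξ)‖ = 1 := by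
      intro ξ
      have : (-2 * Real.pi * x * I : ℂ) * ξ = ((-2 * Real.pi * x * ξ : ℝ) : ℂ) * I := by
        push_cast; ring
      rw [this, Complex.norm_exp_ofReal_mul_I]
    have hF : 𝓕 (fc (sf g x s)) = fun ξ : ℝ =>
        (s : ℂ) * (cexp ((-2 * Real.pi * x * I) * ξ) * 𝓕 (fc g) (s * ξ)) := by
      funext ξ
      exact four_sf g hs0 ξ
    refine ⟨fun ξ => (s : ℂ) * (cexp ((-2 * Real.pi * x * I) * ξ) * (-2 * Real.pi * x * I) *
      𝓕 (fc g) (s * ξ) + cexp ((-2 * Real.pi * x * I) * ξ) * ((s : ℂ) * 𝓕 m (s * ξ))),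
      fun ξ => ?_, ?_, fun ξ => ?_, fun ξ => ?_⟩
    · rw [hF]
      have d1 : HasDerivAt (fun ξ : ℝ => cexp ((-2 * Real.pi * x * I) * ξ))
          (cexp ((-2 * Real.pi * x * I) * ξ) * (-2 * Real.pi * x * I)) ξ := by
        have d2 : HasDerivAt (fun ξ : ℝ => (-2 * Real.pi * x * I : ℂ) * ξ)
            (-2 * Real.pi * x * I) ξ := by
          have := (Complex.ofRealCLM.hasDerivAt (x := ξ)).const_mul (-2 * Real.pi * x * I : ℂ)
          simpa using this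
        exact d2.cexp
      have d3 : HasDerivAt (fun ξ : ℝ => 𝓕 (fc g) (s * ξ)) ((s : ℂ) * 𝓕 m (s * ξ)) ξ := by
        have d4 : HasDerivAt (fun ξ : ℝ => s * ξ) s ξ := by
          have := (hasDerivAt_id ξ).const_mul s
          simpa using this
        have d5 := (four_deriv hg (s * ξ)).scomp ξ d4
        rw [Complex.real_smul] at d5
        exact d5
      exact (d1.mul d3).const_mul _
    · have c1 : Continuous fun ξ : ℝ => cexp ((-2 * Real.pi * x * I) * ξ) := by fun_prop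
      have c2 : Continuous fun ξ : ℝ => 𝓕 (fc g) (s * ξ) := hcg.comp (by fun_prop)
      have c3 : Continuous fun ξ : ℝ => 𝓕 m (s * ξ) := hcm.comp (by fun_prop)
      exact continuous_const.mul (((c1.mul continuous_const).mul c2).add
        (c1.mul (continuous_const.mul c3)))
    · rw [hF]
      simp only
      rw [norm_mul, norm_mul, hex, one_mul, Complex.norm_real, Real.norm_of_nonneg hs0.le]
      have hw := w0_pos M ξ
      calc s * ‖𝓕 (fc g) (s * ξ)‖ ≤ 1 * (K0 * w0 M ξ ^ 3) := by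
            refine mul_le_mul hs1 ?_ (norm_nonneg _) zero_le_one
            exact (h0 _).trans (mul_le_mul_of_nonneg_left (hwt ξ) hK0.le)
        _ ≤ _ := by
            rw [one_mul, hKd]
            refine mul_le_mul_of_nonneg_right ?_ (by positivity)
            nlinarith
    · have hw := w0_pos M ξ
      rw [norm_mul, Complex.norm_real, Real.norm_of_nonneg hs0.le]
      have n1 : ‖cexp ((-2 * Real.pi * x * I) * ξ) * (-2 * Real.pi * x * I) *
          𝓕 (fc g) (s * ξ)‖ ≤ 2 * Real.pi * M * (K0 * w0 M ξ ^ 3) := by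
        rw [norm_mul, norm_mul, hex, one_mul]
        have n2 : ‖(-2 * Real.pi * x * I : ℂ)‖ = 2 * Real.pi * |x| := by
          rw [norm_mul, norm_mul, norm_mul, Complex.norm_I, Complex.norm_real, Complex.norm_real,
            Real.norm_eq_abs, Real.norm_eq_abs, abs_of_pos Real.pi_pos]
          norm_num
        rw [n2]
        refine mul_le_mul ?_ ((h0 _).trans (mul_le_mul_of_nonneg_left (hwt ξ) hK0.le))
          (norm_nonneg _) (by positivity)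
        exact mul_le_mul_of_nonneg_left hx (by positivity)
      have n3 : ‖cexp ((-2 * Real.pi * x * I) * ξ) * ((s : ℂ) * 𝓕 m (s * ξ))‖ ≤
          K1 * w0 M ξ ^ 3 := by
        rw [norm_mul, hex, one_mul, norm_mul, Complex.norm_real, Real.norm_of_nonneg hs0.le]
        calc s * ‖𝓕 m (s * ξ)‖ ≤ 1 * (K1 * w0 M ξ ^ 3) := by
              refine mul_le_mul hs1 ?_ (norm_nonneg _) zero_le_one
              exact (h1 _).trans (mul_le_mul_of_nonneg_left (hwt ξ) hK1.le)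
          _ = _ := one_mul _
      calc s * ‖cexp ((-2 * Real.pi * x * I) * ξ) * (-2 * Real.pi * x * I) *
            𝓕 (fc g) (s * ξ) + cexp ((-2 * Real.pi * x * I) * ξ) * ((s : ℂ) * 𝓕 m (s * ξ))‖ ≤
            1 * (2 * Real.pi * M * (K0 * w0 M ξ ^ 3) + K1 * w0 M ξ ^ 3) :=
            mul_le_mul hs1 ((norm_add_le _ _).trans (add_le_add n1 n3)) (norm_nonneg _) zero_le_one
        _ = (2 * Real.pi * K0 * M + K1) * w0 M ξ ^ 3 := by ring
        _ ≤ (K * M) * w0 M ξ ^ 3 := by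
            refine mul_le_mul_of_nonneg_right ?_ (by positivity)
            rw [hKd]
            nlinarith
  refine ⟨7 * C0 * K ^ 2 + 1, by nlinarith [mul_pos hK hK], ?_⟩
  intro M a β X x y s r hM ha hβ hX hx hy hs hs1 hr hr1
  obtain ⟨D1, hd1, hc1, b1, b3⟩ := hone M x s hM hx hs hs1
  obtain ⟨D2, hd2, hc2, b2, b4⟩ := hone M y r hM hy hr hr1
  have hk := key hC0 hband hd1 hd2 hc1 hc2 hK hM b1 b2 b3 b4 ha hβ hX
  have hX0 : (0 : ℝ) < X := by
    by_contra h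
    have h2 : (X : ℝ) = 0 := le_antisymm (not_lt.1 h) (Nat.cast_nonneg X)
    rw [h2, Real.log_zero] at hX
    linarith
  have e1 : ∑ p ∈ PB β (Real.log X), (cn (fc (sf g x s)) a X p * conj (cn (fc (sf g y r)) a X p)).re =
      ∑ p ∈ PB β (Real.log X), (1 / (Real.pi * a)) ^ 2 * (Real.log p ^ 2 / p *
        inner ℝ (𝓕 (fc (sf g y r)) (Real.log p / (2 * Real.pi * a)))
          (𝓕 (fc (sf g x s)) (Real.log p / (2 * Real.pi * a)))) := by
    refine Finset.sum_congr rfl fun p hp => ?_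
    rw [mem_PB] at hp
    have hp0 : (0 : ℝ) < p := by exact_mod_cast hp.1.pos
    have hpX : p ≤ X := by
      have := (Real.log_le_log_iff hp0 hX0).1 hp.2.2
      exact_mod_cast this
    rw [cn_apply, cn_apply, if_pos ⟨hp.1, hpX⟩, if_pos ⟨hp.1, hpX⟩, map_mul, Complex.conj_ofReal,
      Complex.inner]
    set u := 𝓕 (fc (sf g x s)) (Real.log p / (2 * Real.pi * a))
    set v := 𝓕 (fc (sf g y r)) (Real.log p / (2 * Real.pi * a))
    set q : ℝ := 1 / (Real.pi * a) * (Real.log p * (Real.sqrt p)⁻¹) with hq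
    have e2 : (q : ℂ) * u * ((q : ℂ) * conj v) = ((q ^ 2 : ℝ) : ℂ) * (u * conj v) := by
      push_cast; ring
    rw [e2, Complex.re_ofReal_mul]
    have e3 : q ^ 2 = (1 / (Real.pi * a)) ^ 2 * (Real.log p ^ 2 / p) := by
      rw [hq, mul_pow, mul_pow, inv_pow, Real.sq_sqrt hp0.le]
      ring
    rw [e3, mul_assoc]
  have hreal : ∀ (x s : ℝ) (v : ℝ), conj (fc (sf g x s) v) = fc (sf g x s) v := by
    intro x s v
    unfold fc
    exact Complex.conj_ofReal _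
  have e4 : 2 * cv (sf g x s) (sf g y r) = 4 * ∫ ξ in Set.Ioi (0 : ℝ), ξ *
      inner ℝ (𝓕 (fc (sf g y r)) ξ) (𝓕 (fc (sf g x s)) ξ) := by
    have h2 := integral_comp_abs (f := fun ξ : ℝ => ξ *
      inner ℝ (𝓕 (fc (sf g y r)) ξ) (𝓕 (fc (sf g x s)) ξ))
    have h3 : cv (sf g x s) (sf g y r) = ∫ ξ : ℝ, |ξ| *
        inner ℝ (𝓕 (fc (sf g y r)) |ξ|) (𝓕 (fc (sf g x s)) |ξ|) := by
      unfold cv
      refine integral_congr_ae (Eventually.of_forall fun ξ => ?_)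
      show |ξ| * (𝓕 (fc (sf g x s)) ξ * conj (𝓕 (fc (sf g y r)) ξ)).re = |ξ| *
        inner ℝ (𝓕 (fc (sf g y r)) |ξ|) (𝓕 (fc (sf g x s)) |ξ|)
      rw [Complex.inner]
      rcases abs_choice ξ with h4 | h4
      · rw [h4]
      · rw [h4, four_neg (hreal x s), four_neg (hreal y r), Complex.conj_conj]
        rw [← Complex.conj_re (_ * conj _), map_mul, Complex.conj_conj]
    rw [h3, h2]
    ring
  rw [e1, e4]
  refine hk.trans ?_
  have hM4 : 0 ≤ M ^ 4 * (β ^ 2 / a ^ 2 + 1 / a + 1 / (Real.log X / (2 * Real.pi * a)) ^ 2) := by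
    have : 0 < a := by linarith
    positivity
  nlinarith

end Pool.Agent.Q129.GC
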