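import Pool.Agent.Q129.GC.SMb
import Pool.Agent.Q278.GC.Stm

/-!
# GC-SM: the smoothing inequality in dimension `k`
-/

set_option autoImplicit false

open MeasureTheory Filter Topology Real
open scoped RealInnerProductSpace

namespace Pool.Agent.Q129.GC

/-- the box -/
def Bx (k : ℕ) (R : ℝ) : Set (E k) := {w | ∀ i, |w i| ≤ R}

lemma Bx_meas (k : ℕ) (R : ℝ) : MeasurableSet (Bx k R) := by
  have h1 : Bx k R = ⋂ i, {w : E k | |w i| ≤ R} := by
    ext w
    simp [Bx]
  rw [h1]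
  refine MeasurableSet.iInter fun i => ?_
  have hc : Continuous fun w : E k => |w i| := by fun_prop
  exact (isClosed_le hc continuous_const).measurableSet

lemma Bx_vol (k : ℕ) {R : ℝ} (hR : 0 < R) :
    volume (Bx k R) = ENNReal.ofReal ((2 * R) ^ k) := by
  have h1 := (PiLp.volume_preserving_toLp (Fin k)).measure_preimage
    (Bx_meas k R).nullMeasurableSet
  rw [← h1]
  have h2 : (WithLp.toLp 2 : (Fin k → ℝ) → E k) ⁻¹' (Bx k R) =
      Set.Icc (fun _ => -R) (fun _ => R) := by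
    ext w
    simp only [Set.mem_preimage, Bx, Set.mem_setOf_eq, Set.mem_Icc, Pi.le_def]
    constructor
    · intro h
      exact ⟨fun i => (abs_le.mp (h i)).1, fun i => (abs_le.mp (h i)).2⟩
    · intro h i
      exact abs_le.mpr ⟨h.1 i, h.2 i⟩
  rw [h2, Real.volume_Icc_pi]
  simp only [Finset.prod_const, Finset.card_univ, Fintype.card_fin]
  rw [← ENNReal.ofReal_pow (by linarith)]
  congr 2
  ring

lemma Bx_compl {k : ℕ} {R : ℝ} (hR : 0 < R) {w : E k} (hw : w ∉ Bx k R) :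
    1 ≤ (1 / R ^ 2) * ‖w‖ ^ 2 := by
  unfold Bx at hw
  simp only [Set.mem_setOf_eq, not_forall, not_le] at hw
  obtain ⟨i, hi⟩ := hw
  have h1 : |w i| ≤ ‖w‖ := by
    have := PiLp.norm_apply_le w i
    rwa [Real.norm_eq_abs] at this
  have h2 : R ^ 2 ≤ ‖w‖ ^ 2 := pow_le_pow_left₀ hR.le (hi.le.trans h1) 2
  rw [one_div_mul_eq_div, le_div_iff₀ (by positivity)]
  linarith

/-- the smoothed test function -/
noncomputable def Fs {k : ℕ} (φ : E k → ℝ) (b : ℝ) (u : E k) : ℝ := ∫ v, φ (u + v) * G k b v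

section

variable {k : ℕ} {φ : E k → ℝ} {b : ℝ}

lemma prod_int (hφ : ∀ x, |φ x| ≤ 1) (hc : Continuous φ) (hb : 0 < b) (u : E k) :
    Integrable (fun v => φ (u + v) * G k b v) := by
  refine (G_int k hb).mono' ?_ (Filter.Eventually.of_forall fun v => ?_)
  · exact ((hc.comp (continuous_const.add continuous_id)).mul (G_cont k b)).aestronglyMeasurable
  · rw [norm_mul, Real.norm_eq_abs, Real.norm_of_nonneg (G_nonneg k hb v)]
    have := G_nonneg k hb v
    nlinarith [hφ (u + v)]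

lemma Fs_translate (φ : E k → ℝ) (b : ℝ) (u : E k) :
    Fs φ b u = ∫ w, φ w * G k b (w - u) := by
  unfold Fs
  rw [← integral_add_left_eq_self (fun w => φ w * G k b (w - u)) u]
  refine integral_congr_ae (Filter.Eventually.of_forall fun v => ?_)
  simp only
  rw [add_sub_cancel_left]

lemma trans_int (hφ : ∀ x, |φ x| ≤ 1) (hc : Continuous φ) (hb : 0 < b) (u : E k) :
    Integrable (fun w => φ w * G k b (w - u)) := by
  have h := (prod_int hφ hc hb u).comp_sub_right u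
  refine h.congr (Filter.Eventually.of_forall fun w => ?_)
  simp only
  rw [add_sub_cancel]

lemma Fs_bound (hφ : ∀ x, |φ x| ≤ 1) (hb : 0 < b) (u : E k) : |Fs φ b u| ≤ 1 := by
  unfold Fs
  rw [← Real.norm_eq_abs, ← G_one k hb]
  refine norm_integral_le_of_norm_le (G_int k hb) (Filter.Eventually.of_forall fun v => ?_)
  rw [norm_mul, Real.norm_eq_abs, Real.norm_of_nonneg (G_nonneg k hb v)]
  have := G_nonneg k hb v
  nlinarith [hφ (u + v)]

lemma Fs_meas (hc : Continuous φ) (b : ℝ) : StronglyMeasurable (Fs φ b) := by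
  have h1 : Continuous (Function.uncurry fun (u v : E k) => φ (u + v) * G k b v) := by
    unfold Function.uncurry
    exact (hc.comp (continuous_fst.add continuous_snd)).mul ((G_cont k b).comp continuous_snd)
  exact h1.stronglyMeasurable.integral_prod_right

lemma Fs_close (hφ : ∀ x, |φ x| ≤ 1) (hL : LipschitzWith 1 φ) {ε : ℝ} (hε : 0 < ε) (u : E k) :
    |Fs φ (1 / (2 * ε ^ 2)) u - φ u| ≤ 2 * ε * √k := by
  have hb : 0 < 1 / (2 * ε ^ 2) := by positivity
  obtain ⟨h1, h2⟩ := G_fst k hε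
  have h3 : Fs φ (1 / (2 * ε ^ 2)) u - φ u =
      ∫ v, (φ (u + v) - φ u) * G k (1 / (2 * ε ^ 2)) v := by
    simp only [sub_mul]
    rw [integral_sub (prod_int hφ hL.continuous hb u) ((G_int k hb).const_mul _),
      integral_const_mul, G_one k hb, mul_one]
    rfl
  rw [h3, ← Real.norm_eq_abs]
  refine (norm_integral_le_of_norm_le h1 (Filter.Eventually.of_forall fun v => ?_)).trans h2
  rw [norm_mul, Real.norm_of_nonneg (G_nonneg k hb v)]
  refine mul_le_mul_of_nonneg_right ?_ (G_nonneg k hb v)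
  have := hL.dist_le_mul (u + v) u
  rw [Real.dist_eq, NNReal.coe_one, one_mul, dist_eq_norm, add_sub_cancel_left] at this
  exact this

/-- the part of the smoothed function outside the box -/
lemma out_bound (hφ : ∀ x, |φ x| ≤ 1) (hb : 0 < b) {R : ℝ} (hR : 0 < R) (u : E k) :
    |∫ w in (Bx k R)ᶜ, φ w * G k b (w - u)| ≤ (1 / R ^ 2) * (2 * ‖u‖ ^ 2 + 2 * (k / b)) := by
  obtain ⟨h1, h2⟩ := G_sq k hb
  have hint : Integrable (fun v : E k => (1 / R ^ 2) * ((2 * ‖u‖ ^ 2) * G k b v +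
      2 * (‖v‖ ^ 2 * G k b v))) :=
    (((G_int k hb).const_mul _).add (h1.const_mul 2)).const_mul _
  have hint2 := hint.comp_sub_right u
  have h3 : |∫ w in (Bx k R)ᶜ, φ w * G k b (w - u)| ≤
      ∫ w in (Bx k R)ᶜ, (1 / R ^ 2) * ((2 * ‖u‖ ^ 2) * G k b (w - u) +
        2 * (‖w - u‖ ^ 2 * G k b (w - u))) := by
    rw [← Real.norm_eq_abs]
    refine norm_integral_le_of_norm_le hint2.integrableOn ?_
    refine (ae_restrict_mem (Bx_meas k R).compl).mono fun w hw => ?_
    rw [norm_mul, Real.norm_eq_abs, Real.norm_of_nonneg (G_nonneg k hb _)]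
    have e1 := Bx_compl hR hw
    have e2 := G_nonneg k hb (w - u)
    have e3 : ‖w‖ ^ 2 ≤ 2 * ‖u‖ ^ 2 + 2 * ‖w - u‖ ^ 2 := by
      have e4 : ‖w‖ ≤ ‖u‖ + ‖w - u‖ := by
        have := norm_add_le u (w - u)
        rwa [add_sub_cancel] at this
      have e5 : ‖w‖ ^ 2 ≤ (‖u‖ + ‖w - u‖) ^ 2 := pow_le_pow_left₀ (norm_nonneg _) e4 2
      nlinarith [sq_nonneg (‖u‖ - ‖w - u‖)]
    have hR2 : 0 < 1 / R ^ 2 := by positivity
    have e6 : 1 ≤ (1 / R ^ 2) * (2 * ‖u‖ ^ 2 + 2 * ‖w - u‖ ^ 2) :=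
      e1.trans (mul_le_mul_of_nonneg_left e3 hR2.le)
    calc |φ w| * G k b (w - u) ≤ 1 * G k b (w - u) := mul_le_mul_of_nonneg_right (hφ w) e2
      _ ≤ ((1 / R ^ 2) * (2 * ‖u‖ ^ 2 + 2 * ‖w - u‖ ^ 2)) * G k b (w - u) :=
          mul_le_mul_of_nonneg_right e6 e2
      _ = _ := by ring
  refine h3.trans ?_
  have h4 : ∫ w in (Bx k R)ᶜ, (1 / R ^ 2) * ((2 * ‖u‖ ^ 2) * G k b (w - u) +
        2 * (‖w - u‖ ^ 2 * G k b (w - u))) ≤ ∫ w, (1 / R ^ 2) * ((2 * ‖u‖ ^ 2) * G k b (w - u) +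
        2 * (‖w - u‖ ^ 2 * G k b (w - u))) := by
    refine setIntegral_le_integral hint2 (Filter.Eventually.of_forall fun w => ?_)
    have e2 := G_nonneg k hb (w - u)
    simp only [Pi.zero_apply]
    positivity
  refine h4.trans ?_
  rw [integral_sub_right_eq_self (fun v : E k => (1 / R ^ 2) * ((2 * ‖u‖ ^ 2) * G k b v +
      2 * (‖v‖ ^ 2 * G k b v))) u, integral_const_mul,
    integral_add ((G_int k hb).const_mul _) (h1.const_mul 2), integral_const_mul,
    integral_const_mul, G_one k hb, mul_one]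
  apply mul_le_mul_of_nonneg_left _ (by positivity)
  linarith

/-- the part inside the box -/
lemma in_int (μ : Measure (E k)) [IsFiniteMeasure μ] (hφ : ∀ x, |φ x| ≤ 1) (hc : Continuous φ)
    (hb : 0 < b) {R : ℝ} (hR : 0 < R) :
    Integrable (fun x => ∫ w in Bx k R, φ w * G k b (w - x)) μ ∧
    IntegrableOn (fun w => φ w * P μ b w) (Bx k R) ∧
    ∫ x, (∫ w in Bx k R, φ w * G k b (w - x)) ∂μ = ∫ w in Bx k R, φ w * P μ b w := by
  have hvol : volume (Bx k R) < ⊤ := by
    rw [Bx_vol k hR]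
    exact ENNReal.ofReal_lt_top
  have hfin : IsFiniteMeasure (volume.restrict (Bx k R)) := ⟨by
    rw [Measure.restrict_apply_univ]
    exact hvol⟩
  have hcont : Continuous (Function.uncurry fun (x w : E k) => φ w * G k b (w - x)) := by
    unfold Function.uncurry
    exact (hc.comp continuous_snd).mul ((G_cont k b).comp (continuous_snd.sub continuous_fst))
  have hint : Integrable (Function.uncurry fun (x w : E k) => φ w * G k b (w - x))
      (μ.prod (volume.restrict (Bx k R))) := by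
    refine Integrable.mono' (integrable_const (((π / b) ^ ((k : ℝ) / 2))⁻¹))
      hcont.aestronglyMeasurable (Filter.Eventually.of_forall fun p => ?_)
    unfold Function.uncurry
    rw [norm_mul, Real.norm_eq_abs, Real.norm_of_nonneg (G_nonneg k hb _)]
    have e1 := G_le k hb (p.2 - p.1)
    have e2 := G_nonneg k hb (p.2 - p.1)
    nlinarith [hφ p.2, abs_nonneg (φ p.2)]
  have hinner : ∀ w, ∫ x, φ w * G k b (w - x) ∂μ = φ w * P μ b w := by
    intro w
    rw [integral_const_mul]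
    rfl
  refine ⟨hint.integral_prod_left, ?_, ?_⟩
  · refine hint.integral_prod_right.congr (Filter.Eventually.of_forall fun w => ?_)
    exact hinner w
  · rw [integral_integral_swap hint]
    refine integral_congr_ae (Filter.Eventually.of_forall fun w => ?_)
    exact hinner w

end

theorem t_SM : Pool.Agent.Q278.GC.S_SM := by
  intro k μ ν hμf hνf hμ hν φ ε R D Ξ m2 hφ hL hε hε1 hR hΞ hD hi1 hi2 hm1 hm2 hch
  have hb : 0 < 1 / (2 * ε ^ 2) := by positivity
  set b : ℝ := 1 / (2 * ε ^ 2) with hbd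
  have hc := hL.continuous
  have hφi : ∀ (κ : Measure (E k)) [IsFiniteMeasure κ], Integrable φ κ := fun κ _ =>
    Integrable.mono' (integrable_const (1 : ℝ)) hc.aestronglyMeasurable
      (Filter.Eventually.of_forall fun x => by rw [Real.norm_eq_abs]; exact hφ x)
  have hFi : ∀ (κ : Measure (E k)) [IsFiniteMeasure κ], Integrable (Fs φ b) κ := fun κ _ =>
    Integrable.mono' (integrable_const (1 : ℝ)) (Fs_meas hc b).aestronglyMeasurable
      (Filter.Eventually.of_forall fun x => by rw [Real.norm_eq_abs]; exact Fs_bound hφ hb x)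
  -- smoothing costs little
  have hclose : ∀ (κ : Measure (E k)) [IsFiniteMeasure κ], κ.real Set.univ ≤ 1 →
      |∫ x, Fs φ b x ∂κ - ∫ x, φ x ∂κ| ≤ 2 * ε * √k := by
    intro κ _ hκ
    rw [← integral_sub (hFi κ) (hφi κ), ← Real.norm_eq_abs]
    have h1 : ‖∫ x, (Fs φ b x - φ x) ∂κ‖ ≤ ∫ _x, 2 * ε * √k ∂κ :=
      norm_integral_le_of_norm_le (integrable_const _) (Filter.Eventually.of_forall fun x => by
        rw [Real.norm_eq_abs]
        exact Fs_close hφ hL hε x)
    refine h1.trans ?_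
    rw [integral_const, smul_eq_mul]
    have : 0 ≤ 2 * ε * √k := by positivity
    nlinarith
  -- the outer part
  have hout : ∀ (κ : Measure (E k)) [IsFiniteMeasure κ], κ.real Set.univ ≤ 1 →
      Integrable (fun x => ‖x‖ ^ 2) κ → ∫ x, ‖x‖ ^ 2 ∂κ ≤ m2 →
      |(∫ x, Fs φ b x ∂κ) - ∫ w in Bx k R, φ w * P κ b w| ≤ 4 * (m2 + k) / R ^ 2 := by
    intro κ _ hκ hκi hκm
    obtain ⟨h1, -, h3⟩ := in_int κ hφ hc hb hR
    rw [← h3, ← integral_sub (hFi κ) h1, ← Real.norm_eq_abs]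
    have hint : Integrable (fun x : E k => (1 / R ^ 2) * (2 * ‖x‖ ^ 2 + 2 * (k / b))) κ :=
      ((hκi.const_mul 2).add (integrable_const _)).const_mul _
    have h4 : ‖∫ x, (Fs φ b x - ∫ w in Bx k R, φ w * G k b (w - x)) ∂κ‖ ≤
        ∫ x, (1 / R ^ 2) * (2 * ‖x‖ ^ 2 + 2 * (k / b)) ∂κ := by
      refine norm_integral_le_of_norm_le hint (Filter.Eventually.of_forall fun x => ?_)
      have e1 : Fs φ b x - ∫ w in Bx k R, φ w * G k b (w - x) =
          ∫ w in (Bx k R)ᶜ, φ w * G k b (w - x) := by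
        rw [Fs_translate, ← integral_add_compl (Bx_meas k R) (trans_int hφ hc hb x)]
        ring
      rw [e1, Real.norm_eq_abs]
      exact out_bound hφ hb hR x
    refine h4.trans ?_
    rw [integral_const_mul, integral_add (hκi.const_mul 2) (integrable_const _),
      integral_const_mul, integral_const, smul_eq_mul]
    have e2 : (k : ℝ) / b ≤ 2 * k := by
      rw [hbd, div_div_eq_mul_div, div_one]
      have e3 : ε ^ 2 ≤ 1 := pow_le_one₀ hε.le hε1
      have e4 : (0 : ℝ) ≤ k := Nat.cast_nonneg k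
      nlinarith
    have e5 : 0 ≤ 2 * ((k : ℝ) / b) := by positivity
    have e6 : κ.real Set.univ * (2 * ((k : ℝ) / b)) ≤ 4 * k := by
      nlinarith [measureReal_nonneg (μ := κ) (s := Set.univ)]
    have e7 : 2 * ∫ x, ‖x‖ ^ 2 ∂κ + κ.real Set.univ * (2 * ((k : ℝ) / b)) ≤ 4 * (m2 + k) := by
      have e8 : 0 ≤ ∫ x, ‖x‖ ^ 2 ∂κ := integral_nonneg fun x => sq_nonneg _
      linarith
    calc (1 / R ^ 2) * (2 * ∫ x, ‖x‖ ^ 2 ∂κ + κ.real Set.univ * (2 * ((k : ℝ) / b))) ≤
          (1 / R ^ 2) * (4 * (m2 + k)) := mul_le_mul_of_nonneg_left e7 (by positivity)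
      _ = 4 * (m2 + k) / R ^ 2 := by ring
  -- the inner part
  have hin : |(∫ w in Bx k R, φ w * P μ b w) - ∫ w in Bx k R, φ w * P ν b w| ≤
      (4 * R / ε) ^ k * (D + 2 * rexp (-(ε * Ξ) ^ 2 / 4)) := by
    obtain ⟨-, h1, -⟩ := in_int μ hφ hc hb hR
    obtain ⟨-, h2, -⟩ := in_int ν hφ hc hb hR
    rw [← integral_sub h1 h2, ← Real.norm_eq_abs]
    have hvol : volume (Bx k R) < ⊤ := by
      rw [Bx_vol k hR]
      exact ENNReal.ofReal_lt_top
    have h3 := norm_setIntegral_le_of_norm_le_const (μ := volume) (s := Bx k R)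
      (f := fun w => φ w * P μ b w - φ w * P ν b w)
      (C := (1 / ε) ^ k * (D + 2 * rexp (-(ε * Ξ) ^ 2 / 4))) hvol (by
        intro w _
        have e1 := P_diff μ ν hμ hν hε hΞ hD hch w
        have e2 : φ w * P μ b w - φ w * P ν b w = φ w * (P μ b w - P ν b w) := by ring
        rw [e2, norm_mul, Real.norm_eq_abs, Real.norm_eq_abs]
        calc |φ w| * |P μ b w - P ν b w| ≤ 1 * |P μ b w - P ν b w| :=
              mul_le_mul_of_nonneg_right (hφ w) (abs_nonneg _)
          _ ≤ _ := by rw [one_mul]; exact e1)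
    refine h3.trans ?_
    have h4 : volume.real (Bx k R) = (2 * R) ^ k := by
      rw [Measure.real, Bx_vol k hR, ENNReal.toReal_ofReal (by positivity)]
    rw [h4]
    have e0 : 0 ≤ D + 2 * rexp (-(ε * Ξ) ^ 2 / 4) := by positivity
    have e1 : (1 / ε) ^ k * (2 * R) ^ k ≤ (4 * R / ε) ^ k := by
      rw [← mul_pow]
      apply pow_le_pow_left₀ (by positivity)
      rw [one_div_mul_eq_div]
      apply div_le_div_of_nonneg_right _ hε.le
      linarith
    calc (1 / ε) ^ k * (D + 2 * rexp (-(ε * Ξ) ^ 2 / 4)) * (2 * R) ^ k =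
          ((1 / ε) ^ k * (2 * R) ^ k) * (D + 2 * rexp (-(ε * Ξ) ^ 2 / 4)) := by ring
      _ ≤ _ := mul_le_mul_of_nonneg_right e1 e0
  have c1 := hclose μ hμ
  have c2 := hclose ν hν
  have c3 := hout μ hμ hi1 hm1
  have c4 := hout ν hν hi2 hm2
  have c5 : 8 * (m2 + k) / R ^ 2 = 4 * (m2 + k) / R ^ 2 + 4 * (m2 + k) / R ^ 2 := by ring
  rw [c5]
  rw [abs_le] at c1 c2 c3 c4 hin ⊢
  constructor
  · linarith [c1.1, c1.2, c2.1, c2.2, c3.1, c3.2, c4.1, c4.2, hin.1, hin.2]
  · linarith [c1.1, c1.2, c2.1, c2.2, c3.1, c3.2, c4.1, c4.2, hin.1, hin.2]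

end Pool.Agent.Q129.GC
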