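import Mathlib

/-!
# GC-SM, part one: the Gaussian kernel on a Euclidean space
-/

set_option autoImplicit false

open MeasureTheory Filter Topology Real
open scoped RealInnerProductSpace

namespace Pool.Agent.Q129.GC

/-- Euclidean space -/
abbrev E (k : ℕ) := EuclideanSpace ℝ (Fin k)

lemma int_exp (k : ℕ) {b : ℝ} (hb : 0 < b) :
    Integrable (fun v : E k => rexp (-b * ‖v‖ ^ 2)) := by
  have h := GaussianFourier.integrable_cexp_neg_mul_sq_norm_add (b := (b : ℂ)) (by simpa using hb)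
    0 (0 : E k)
  have h1 := h.norm
  refine h1.congr (Filter.Eventually.of_forall fun v => ?_)
  simp only [Complex.norm_exp, zero_mul, add_zero]
  congr 1
  have : (-(b : ℂ) * ((‖v‖ : ℝ) : ℂ) ^ 2) = ((-b * ‖v‖ ^ 2 : ℝ) : ℂ) := by push_cast; ring
  rw [this, Complex.ofReal_re]

lemma integral_exp (k : ℕ) {b : ℝ} (hb : 0 < b) :
    ∫ v : E k, rexp (-b * ‖v‖ ^ 2) = (π / b) ^ ((k : ℝ) / 2) := by
  rw [GaussianFourier.integral_rexp_neg_mul_sq_norm hb]
  congr 2
  rw [finrank_euclideanSpace_fin]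

/-- half powers -/
lemma rpow_half (x : ℝ) (hx : 0 ≤ x) (k : ℕ) : x ^ ((k : ℝ) / 2) = (√x) ^ k := by
  rw [Real.sqrt_eq_rpow, ← Real.rpow_natCast, ← Real.rpow_mul hx]
  congr 1
  ring

/-- the Gaussian kernel -/
noncomputable def G (k : ℕ) (b : ℝ) (v : E k) : ℝ :=
  ((π / b) ^ ((k : ℝ) / 2))⁻¹ * rexp (-b * ‖v‖ ^ 2)

lemma cst_pos (k : ℕ) {b : ℝ} (hb : 0 < b) : 0 < (π / b) ^ ((k : ℝ) / 2) :=
  Real.rpow_pos_of_pos (div_pos Real.pi_pos hb) _

lemma G_nonneg (k : ℕ) {b : ℝ} (hb : 0 < b) (v : E k) : 0 ≤ G k b v :=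
  mul_nonneg (inv_nonneg.mpr (cst_pos k hb).le) (Real.exp_pos _).le

lemma G_cont (k : ℕ) (b : ℝ) : Continuous (G k b) := by
  unfold G
  fun_prop

lemma G_le (k : ℕ) {b : ℝ} (hb : 0 < b) (v : E k) : G k b v ≤ ((π / b) ^ ((k : ℝ) / 2))⁻¹ := by
  unfold G
  have h1 : rexp (-b * ‖v‖ ^ 2) ≤ 1 := by
    rw [Real.exp_le_one_iff]
    nlinarith [sq_nonneg ‖v‖]
  have h2 := inv_nonneg.mpr (cst_pos k hb).le
  nlinarith

lemma G_int (k : ℕ) {b : ℝ} (hb : 0 < b) : Integrable (G k b) :=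
  (int_exp k hb).const_mul _

lemma G_one (k : ℕ) {b : ℝ} (hb : 0 < b) : ∫ v, G k b v = 1 := by
  unfold G
  rw [integral_const_mul, integral_exp k hb]
  exact inv_mul_cancel₀ (cst_pos k hb).ne'

lemma G_neg (k : ℕ) (b : ℝ) (v : E k) : G k b (-v) = G k b v := by
  unfold G
  rw [norm_neg]

/-- the second moment -/
lemma G_sq (k : ℕ) {b : ℝ} (hb : 0 < b) :
    Integrable (fun v => ‖v‖ ^ 2 * G k b v) ∧ ∫ v, ‖v‖ ^ 2 * G k b v ≤ k / b := by
  rcases Nat.eq_zero_or_pos k with h0 | hk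
  · subst h0
    have h1 : ∀ v : E 0, ‖v‖ ^ 2 * G 0 b v = 0 := by
      intro v
      have : v = 0 := Subsingleton.elim _ _
      rw [this, norm_zero]
      ring
    simp only [h1]
    exact ⟨integrable_zero _ _ _, by simp⟩
  · have hkR : (1 : ℝ) ≤ k := by exact_mod_cast hk
    set t : ℝ := 1 / (4 * k) with ht
    have ht0 : 0 < t := by positivity
    have ht1 : t ≤ 1 / 4 := by
      rw [ht]
      apply one_div_le_one_div_of_le (by norm_num)
      linarith
    have hkt : k * t = 1 / 4 := by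
      rw [ht]
      field_simp
    set s : ℝ := b * t with hs
    have hs0 : 0 < s := mul_pos hb ht0
    have hbs : 0 < b * (1 - t) := mul_pos hb (by linarith)
    have hexp : ∀ v : E k, ‖v‖ ^ 2 * G k b v ≤
        s⁻¹ * (((π / b) ^ ((k : ℝ) / 2))⁻¹ * rexp (-(b * (1 - t)) * ‖v‖ ^ 2) - G k b v) := by
      intro v
      have e1 : ((π / b) ^ ((k : ℝ) / 2))⁻¹ * rexp (-(b * (1 - t)) * ‖v‖ ^ 2) =
          rexp (s * ‖v‖ ^ 2) * G k b v := by
        unfold G
        have : rexp (-(b * (1 - t)) * ‖v‖ ^ 2) = rexp (s * ‖v‖ ^ 2) * rexp (-b * ‖v‖ ^ 2) := by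
          rw [← Real.exp_add]
          congr 1
          rw [hs]
          ring
        rw [this]
        ring
      rw [e1, inv_mul_eq_div, le_div_iff₀ hs0]
      have e2 := Real.add_one_le_exp (s * ‖v‖ ^ 2)
      have e3 := G_nonneg k hb v
      nlinarith
    have hint1 := ((int_exp k hbs).const_mul ((π / b) ^ ((k : ℝ) / 2))⁻¹).sub (G_int k hb)
    have hint2 := hint1.const_mul s⁻¹
    have hmeas : AEStronglyMeasurable (fun v : E k => ‖v‖ ^ 2 * G k b v) volume :=
      ((continuous_norm.pow 2).mul (G_cont k b)).aestronglyMeasurable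
    have hint : Integrable (fun v => ‖v‖ ^ 2 * G k b v) := by
      refine hint2.mono' hmeas (Filter.Eventually.of_forall fun v => ?_)
      rw [Real.norm_of_nonneg (mul_nonneg (sq_nonneg _) (G_nonneg k hb v))]
      exact hexp v
    refine ⟨hint, ?_⟩
    have h1 : ∫ v, ‖v‖ ^ 2 * G k b v ≤
        ∫ v : E k, s⁻¹ * (((π / b) ^ ((k : ℝ) / 2))⁻¹ * rexp (-(b * (1 - t)) * ‖v‖ ^ 2) -
          G k b v) := integral_mono hint hint2 hexp
    refine h1.trans ?_
    rw [integral_const_mul, integral_sub ((int_exp k hbs).const_mul _) (G_int k hb),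
      integral_const_mul, integral_exp k hbs, G_one k hb]
    have h2 : ((π / b) ^ ((k : ℝ) / 2))⁻¹ * (π / (b * (1 - t))) ^ ((k : ℝ) / 2) ≤ 5 / 4 := by
      have e1 : (π / (b * (1 - t))) = (π / b) * (1 - t)⁻¹ := by
        have : (1 - t) ≠ 0 := by linarith
        field_simp
      have h1t : 0 < 1 - t := by linarith
      rw [e1, Real.mul_rpow (div_pos Real.pi_pos hb).le (inv_nonneg.mpr h1t.le), ← mul_assoc,
        inv_mul_cancel₀ (cst_pos k hb).ne', one_mul, rpow_half _ (inv_nonneg.mpr h1t.le),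
        Real.sqrt_inv, inv_pow]
      have e2 : (3 / 4 : ℝ) ≤ (1 - t) ^ k := by
        have := one_add_mul_le_pow (a := -t) (by linarith) k
        have e3 : 1 + (k : ℝ) * -t = 3 / 4 := by linarith
        rw [e3] at this
        exact this
      have e4 : ((√(1 - t)) ^ k) ^ 2 = (1 - t) ^ k := by
        rw [← pow_mul, mul_comm, pow_mul, Real.sq_sqrt h1t.le]
      have e5 : (4 / 5 : ℝ) ≤ (√(1 - t)) ^ k := by
        have e6 : 0 ≤ (√(1 - t)) ^ k := by positivity
        nlinarith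
      rw [inv_le_comm₀ (by positivity) (by norm_num)]
      linarith
    have h3 : s⁻¹ * (1 / 4) = k / b := by
      rw [hs, ← hkt]
      field_simp
    rw [← h3]
    apply mul_le_mul_of_nonneg_left _ (inv_nonneg.mpr hs0.le)
    linarith

/-- the first moment -/
lemma G_fst (k : ℕ) {ε : ℝ} (hε : 0 < ε) :
    Integrable (fun v => ‖v‖ * G k (1 / (2 * ε ^ 2)) v) ∧
      ∫ v, ‖v‖ * G k (1 / (2 * ε ^ 2)) v ≤ 2 * ε * √k := by
  have hb : 0 < 1 / (2 * ε ^ 2) := by positivity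
  obtain ⟨h1, h2⟩ := G_sq k hb
  rcases Nat.eq_zero_or_pos k with h0 | hk
  · subst h0
    have h3 : ∀ v : E 0, ‖v‖ * G 0 (1 / (2 * ε ^ 2)) v = 0 := by
      intro v
      have : v = 0 := Subsingleton.elim _ _
      rw [this, norm_zero]
      ring
    simp only [h3]
    exact ⟨integrable_zero _ _ _, by simp⟩
  · have hkR : (0 : ℝ) < k := by exact_mod_cast hk
    have hsk : 0 < √(k : ℝ) := Real.sqrt_pos.mpr hkR
    set α : ℝ := 2 * ε * √k with hα
    have hα0 : 0 < α := by positivity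
    have hle : ∀ v : E k, ‖v‖ * G k (1 / (2 * ε ^ 2)) v ≤
        (α / 2) * G k (1 / (2 * ε ^ 2)) v + (1 / (2 * α)) *
          (‖v‖ ^ 2 * G k (1 / (2 * ε ^ 2)) v) := by
      intro v
      have e1 : ‖v‖ ≤ α / 2 + (1 / (2 * α)) * ‖v‖ ^ 2 := by
        have : α / 2 + (1 / (2 * α)) * ‖v‖ ^ 2 - ‖v‖ = (α - ‖v‖) ^ 2 / (2 * α) := by
          field_simp
          ring
        have h5 : 0 ≤ (α - ‖v‖) ^ 2 / (2 * α) := by positivity
        linarith
      have e2 := G_nonneg k hb v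
      calc ‖v‖ * G k (1 / (2 * ε ^ 2)) v ≤
            (α / 2 + (1 / (2 * α)) * ‖v‖ ^ 2) * G k (1 / (2 * ε ^ 2)) v :=
            mul_le_mul_of_nonneg_right e1 e2
        _ = _ := by ring
    have hint2 := ((G_int k hb).const_mul (α / 2)).add (h1.const_mul (1 / (2 * α)))
    have hint : Integrable (fun v => ‖v‖ * G k (1 / (2 * ε ^ 2)) v) := by
      refine hint2.mono' (continuous_norm.mul (G_cont k _)).aestronglyMeasurable
        (Filter.Eventually.of_forall fun v => ?_)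
      rw [Real.norm_of_nonneg (mul_nonneg (norm_nonneg _) (G_nonneg k hb v))]
      exact hle v
    refine ⟨hint, ?_⟩
    refine (integral_mono hint hint2 hle).trans ?_
    simp only [Pi.add_apply]
    rw [integral_add ((G_int k hb).const_mul (α / 2)) (h1.const_mul (1 / (2 * α))),
      integral_const_mul, integral_const_mul, G_one k hb, mul_one]
    have h3 : (1 / (2 * α)) * ∫ v, ‖v‖ ^ 2 * G k (1 / (2 * ε ^ 2)) v ≤
        (1 / (2 * α)) * (k / (1 / (2 * ε ^ 2))) := mul_le_mul_of_nonneg_left h2 (by positivity)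
    have h4 : (1 / (2 * α)) * (k / (1 / (2 * ε ^ 2))) = α / 4 * 1 := by
      have h5 : (k : ℝ) = √k * √k := (Real.mul_self_sqrt hkR.le).symm
      rw [hα]
      field_simp
      nlinarith [h5]
    linarith

end Pool.Agent.Q129.GC
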