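import Pool.Agent.Q129.GC.SMa

/-!
# GC-SM, part two: smoothing and Fourier representation
-/

set_option autoImplicit false

open MeasureTheory Filter Topology Real
open scoped RealInnerProductSpace

namespace Pool.Agent.Q129.GC

/-- the Gaussian kernel as a Fourier integral -/
lemma G_fourier (k : ℕ) {ε : ℝ} (hε : 0 < ε) (v : E k) :
    ((G k (1 / (2 * ε ^ 2)) v : ℝ) : ℂ) = (((2 * π) ^ k : ℝ) : ℂ)⁻¹ *
      ∫ ξ : E k, Complex.exp (-((ε ^ 2 / 2 : ℝ) : ℂ) * ‖ξ‖ ^ 2 + Complex.I * ⟪v, ξ⟫) := by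
  have hb : 0 < ε ^ 2 / 2 := by positivity
  rw [GaussianFourier.integral_cexp_neg_mul_sq_norm_add (by rw [Complex.ofReal_re]; exact hb),
    finrank_euclideanSpace_fin]
  have h1 : ((π : ℂ) / ((ε ^ 2 / 2 : ℝ) : ℂ)) ^ ((k : ℂ) / 2) =
      (((π / (ε ^ 2 / 2)) ^ ((k : ℝ) / 2) : ℝ) : ℂ) := by
    rw [Complex.ofReal_cpow (by positivity)]
    push_cast
    rfl
  have h2 : Complex.exp (Complex.I ^ 2 * ((‖v‖ : ℝ) : ℂ) ^ 2 / (4 * ((ε ^ 2 / 2 : ℝ) : ℂ))) =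
      ((rexp (-(1 / (2 * ε ^ 2)) * ‖v‖ ^ 2) : ℝ) : ℂ) := by
    rw [Complex.ofReal_exp]
    congr 1
    rw [Complex.I_sq]
    push_cast
    have : (ε : ℂ) ≠ 0 := by exact_mod_cast hε.ne'
    field_simp
    ring
  rw [h1, h2]
  unfold G
  rw [← Complex.ofReal_inv, ← Complex.ofReal_mul, ← Complex.ofReal_mul]
  congr 1
  rw [← mul_assoc]
  congr 1
  have hp := Real.pi_pos
  rw [rpow_half _ (by positivity), rpow_half _ (by positivity), ← inv_pow, ← inv_pow, ← mul_pow]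
  congr 1
  have e1 : √(π / (1 / (2 * ε ^ 2))) = √(2 * π) * ε := by
    rw [show π / (1 / (2 * ε ^ 2)) = (2 * π) * ε ^ 2 by field_simp, Real.sqrt_mul (by positivity),
      Real.sqrt_sq hε.le]
  have e2 : √(π / (ε ^ 2 / 2)) = √(2 * π) / ε := by
    rw [show π / (ε ^ 2 / 2) = (2 * π) / ε ^ 2 by field_simp, Real.sqrt_div (by positivity),
      Real.sqrt_sq hε.le]
  have e3 : √(2 * π) * √(2 * π) = 2 * π := Real.mul_self_sqrt (by positivity)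
  have e4 : 0 < √(2 * π) := Real.sqrt_pos.mpr (by positivity)
  rw [e1, e2]
  field_simp
  nlinarith [e3]

/-- the smoothed measure -/
noncomputable def P {k : ℕ} (μ : Measure (E k)) (b : ℝ) (w : E k) : ℝ := ∫ x, G k b (w - x) ∂μ

/-- the integrand of the Fourier representation -/
noncomputable def Ph {k : ℕ} (μ : Measure (E k)) (ε : ℝ) (w ξ : E k) : ℂ :=
  Complex.exp (-((ε ^ 2 / 2 : ℝ) : ℂ) * ‖ξ‖ ^ 2 + Complex.I * ⟪w, ξ⟫) * charFun μ (-ξ)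

lemma norm_ker {k : ℕ} (ε : ℝ) (w ξ : E k) :
    ‖Complex.exp (-((ε ^ 2 / 2 : ℝ) : ℂ) * ‖ξ‖ ^ 2 + Complex.I * ⟪w, ξ⟫)‖ =
      rexp (-(ε ^ 2 / 2) * ‖ξ‖ ^ 2) := by
  rw [Complex.norm_exp]
  congr 1
  have : (-((ε ^ 2 / 2 : ℝ) : ℂ) * ((‖ξ‖ : ℝ) : ℂ) ^ 2 + Complex.I * ((⟪w, ξ⟫ : ℝ) : ℂ)) =
      ((-(ε ^ 2 / 2) * ‖ξ‖ ^ 2 : ℝ) : ℂ) + ((⟪w, ξ⟫ : ℝ) : ℂ) * Complex.I := by
    push_cast
    ring
  rw [this, Complex.add_re, Complex.ofReal_re, Complex.re_ofReal_mul, Complex.I_re, mul_zero,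
    add_zero]

lemma P_fourier {k : ℕ} (μ : Measure (E k)) [IsFiniteMeasure μ] {ε : ℝ} (hε : 0 < ε) (w : E k) :
    Integrable (fun ξ => Ph μ ε w ξ) ∧ ((P μ (1 / (2 * ε ^ 2)) w : ℝ) : ℂ) =
      (((2 * π) ^ k : ℝ) : ℂ)⁻¹ * ∫ ξ, Ph μ ε w ξ := by
  set f : E k → E k → ℂ := fun x ξ =>
    Complex.exp (-((ε ^ 2 / 2 : ℝ) : ℂ) * ‖ξ‖ ^ 2 + Complex.I * ⟪w - x, ξ⟫) with hf
  have hcont : Continuous (Function.uncurry f) := by
    rw [hf]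
    unfold Function.uncurry
    fun_prop
  have hint : Integrable (Function.uncurry f) (μ.prod volume) := by
    have h1 : Integrable (fun p : E k × E k => rexp (-(ε ^ 2 / 2) * ‖p.2‖ ^ 2))
        (μ.prod volume) := (int_exp k (by positivity : 0 < ε ^ 2 / 2)).comp_snd μ
    refine h1.mono' hcont.aestronglyMeasurable (Filter.Eventually.of_forall fun p => ?_)
    unfold Function.uncurry
    rw [hf]
    simp only
    rw [norm_ker]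
  have hinner : ∀ ξ, ∫ x, f x ξ ∂μ = Ph μ ε w ξ := by
    intro ξ
    have h1 : ∀ x, f x ξ = Complex.exp (-((ε ^ 2 / 2 : ℝ) : ℂ) * ‖ξ‖ ^ 2 +
        Complex.I * ⟪w, ξ⟫) * Complex.exp (⟪x, -ξ⟫ * Complex.I) := by
      intro x
      rw [hf]
      simp only
      rw [← Complex.exp_add]
      congr 1
      rw [inner_sub_left, inner_neg_right]
      push_cast
      ring
    simp only [h1]
    rw [integral_const_mul]
    rfl
  constructor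
  · have h1 := hint.integral_prod_right
    refine h1.congr (Filter.Eventually.of_forall fun ξ => ?_)
    exact hinner ξ
  · unfold P
    rw [← integral_complex_ofReal]
    have h1 : ∀ x, ((G k (1 / (2 * ε ^ 2)) (w - x) : ℝ) : ℂ) =
        (((2 * π) ^ k : ℝ) : ℂ)⁻¹ * ∫ ξ, f x ξ := fun x => G_fourier k hε (w - x)
    have h2 : ∫ x, ((G k (1 / (2 * ε ^ 2)) (w - x) : ℝ) : ℂ) ∂μ =
        ∫ x, ((((2 * π) ^ k : ℝ) : ℂ)⁻¹ * (∫ ξ, f x ξ)) ∂μ := integral_congr_ae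
          (Filter.Eventually.of_forall fun x => h1 x)
    refine Eq.trans h2 ?_
    rw [integral_const_mul, integral_integral_swap hint]
    congr 1
    refine integral_congr_ae (Filter.Eventually.of_forall fun ξ => ?_)
    exact hinner ξ

lemma P_diff {k : ℕ} (μ ν : Measure (E k)) [IsFiniteMeasure μ] [IsFiniteMeasure ν]
    (hμ : μ.real Set.univ ≤ 1) (hν : ν.real Set.univ ≤ 1) {ε D Ξ : ℝ} (hε : 0 < ε) (hΞ : 0 ≤ Ξ)
    (hD : 0 ≤ D) (hch : ∀ ξ, ‖ξ‖ ≤ Ξ → ‖charFun μ ξ - charFun ν ξ‖ ≤ D) (w : E k) :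
    |P μ (1 / (2 * ε ^ 2)) w - P ν (1 / (2 * ε ^ 2)) w| ≤
      (1 / ε) ^ k * (D + 2 * rexp (-(ε * Ξ) ^ 2 / 4)) := by
  obtain ⟨h1, h2⟩ := P_fourier μ hε w
  obtain ⟨h3, h4⟩ := P_fourier ν hε w
  have hp := Real.pi_pos
  set e0 : ℝ := rexp (-(ε * Ξ) ^ 2 / 4) with he0
  have he0p : 0 < e0 := Real.exp_pos _
  have h5 : ((P μ (1 / (2 * ε ^ 2)) w - P ν (1 / (2 * ε ^ 2)) w : ℝ) : ℂ) =
      (((2 * π) ^ k : ℝ) : ℂ)⁻¹ * ∫ ξ, (Ph μ ε w ξ - Ph ν ε w ξ) := by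
    rw [Complex.ofReal_sub, h2, h4, integral_sub h1 h3]
    ring
  have h6 : |P μ (1 / (2 * ε ^ 2)) w - P ν (1 / (2 * ε ^ 2)) w| =
      ((2 * π) ^ k)⁻¹ * ‖∫ ξ, (Ph μ ε w ξ - Ph ν ε w ξ)‖ := by
    rw [← Real.norm_eq_abs, ← Complex.norm_real, h5, norm_mul, norm_inv, Complex.norm_real,
      Real.norm_of_nonneg (by positivity)]
  rw [h6]
  have hb2 : 0 < ε ^ 2 / 2 := by positivity
  have hb4 : 0 < ε ^ 2 / 4 := by positivity
  have hpt : ∀ ξ, ‖Ph μ ε w ξ - Ph ν ε w ξ‖ ≤ D * rexp (-(ε ^ 2 / 2) * ‖ξ‖ ^ 2) +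
      2 * e0 * rexp (-(ε ^ 2 / 4) * ‖ξ‖ ^ 2) := by
    intro ξ
    have e1 : Ph μ ε w ξ - Ph ν ε w ξ =
        Complex.exp (-((ε ^ 2 / 2 : ℝ) : ℂ) * ‖ξ‖ ^ 2 + Complex.I * ⟪w, ξ⟫) *
          (charFun μ (-ξ) - charFun ν (-ξ)) := by
      unfold Ph
      ring
    rw [e1, norm_mul, norm_ker]
    have e2 := Real.exp_pos (-(ε ^ 2 / 2) * ‖ξ‖ ^ 2)
    have e3 := Real.exp_pos (-(ε ^ 2 / 4) * ‖ξ‖ ^ 2)
    by_cases hξ : ‖ξ‖ ≤ Ξ
    · have e4 := hch (-ξ) (by rwa [norm_neg])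
      have e5 : rexp (-(ε ^ 2 / 2) * ‖ξ‖ ^ 2) * ‖charFun μ (-ξ) - charFun ν (-ξ)‖ ≤
          rexp (-(ε ^ 2 / 2) * ‖ξ‖ ^ 2) * D := mul_le_mul_of_nonneg_left e4 e2.le
      have e6 : 0 ≤ 2 * e0 * rexp (-(ε ^ 2 / 4) * ‖ξ‖ ^ 2) := by positivity
      linarith
    · push Not at hξ
      have e4 : ‖charFun μ (-ξ) - charFun ν (-ξ)‖ ≤ 2 := by
        refine (norm_sub_le _ _).trans ?_
        have := (norm_charFun_le (μ := μ) (-ξ)).trans hμ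
        have := (norm_charFun_le (μ := ν) (-ξ)).trans hν
        linarith
      have e5 : rexp (-(ε ^ 2 / 2) * ‖ξ‖ ^ 2) =
          rexp (-(ε ^ 2 / 4) * ‖ξ‖ ^ 2) * rexp (-(ε ^ 2 / 4) * ‖ξ‖ ^ 2) := by
        rw [← Real.exp_add]
        congr 1
        ring
      have e6 : rexp (-(ε ^ 2 / 4) * ‖ξ‖ ^ 2) ≤ e0 := by
        rw [he0]
        apply Real.exp_le_exp.mpr
        have : Ξ ^ 2 ≤ ‖ξ‖ ^ 2 := pow_le_pow_left₀ hΞ hξ.le 2
        nlinarith [sq_nonneg ε]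
      have e7 : rexp (-(ε ^ 2 / 2) * ‖ξ‖ ^ 2) * ‖charFun μ (-ξ) - charFun ν (-ξ)‖ ≤
          (rexp (-(ε ^ 2 / 4) * ‖ξ‖ ^ 2) * e0) * 2 := by
        refine mul_le_mul ?_ e4 (norm_nonneg _) (by positivity)
        rw [e5]
        exact mul_le_mul_of_nonneg_left e6 e3.le
      have e8 : 0 ≤ D * rexp (-(ε ^ 2 / 2) * ‖ξ‖ ^ 2) := by positivity
      linarith
  have hintB := ((int_exp k hb2).const_mul D).add ((int_exp k hb4).const_mul (2 * e0))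
  have h7 : ‖∫ ξ, (Ph μ ε w ξ - Ph ν ε w ξ)‖ ≤
      D * (π / (ε ^ 2 / 2)) ^ ((k : ℝ) / 2) + 2 * e0 * (π / (ε ^ 2 / 4)) ^ ((k : ℝ) / 2) := by
    have e1 := norm_integral_le_of_norm_le hintB (Filter.Eventually.of_forall hpt)
    refine e1.trans (le_of_eq ?_)
    simp only [Pi.add_apply]
    rw [integral_add ((int_exp k hb2).const_mul D) ((int_exp k hb4).const_mul (2 * e0)),
      integral_const_mul, integral_const_mul, integral_exp k hb2, integral_exp k hb4]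
  have h8 : ∀ y : ℝ, 0 ≤ y → y ≤ (2 * π / ε) ^ 2 → ((2 * π) ^ k)⁻¹ * y ^ ((k : ℝ) / 2) ≤
      (1 / ε) ^ k := by
    intro y hy hy2
    rw [rpow_half y hy, ← inv_pow, ← mul_pow]
    apply pow_le_pow_left₀ (by positivity)
    have e1 : √y ≤ 2 * π / ε := Real.sqrt_le_iff.mpr ⟨by positivity, hy2⟩
    calc (2 * π)⁻¹ * √y ≤ (2 * π)⁻¹ * (2 * π / ε) := mul_le_mul_of_nonneg_left e1 (by positivity)
      _ = 1 / ε := by field_simp
  have hpi3 := Real.pi_gt_three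
  have h9 := h8 (π / (ε ^ 2 / 2)) (by positivity) (by
    rw [div_pow, div_le_div_iff₀ (by positivity) (by positivity)]
    nlinarith [sq_nonneg ε, mul_pos (sq_pos_of_pos hε) hp])
  have h10 := h8 (π / (ε ^ 2 / 4)) (by positivity) (by
    rw [div_pow, div_le_div_iff₀ (by positivity) (by positivity)]
    nlinarith [sq_nonneg ε, mul_pos (sq_pos_of_pos hε) hp])
  calc ((2 * π) ^ k)⁻¹ * ‖∫ ξ, (Ph μ ε w ξ - Ph ν ε w ξ)‖ ≤ ((2 * π) ^ k)⁻¹ *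
        (D * (π / (ε ^ 2 / 2)) ^ ((k : ℝ) / 2) + 2 * e0 * (π / (ε ^ 2 / 4)) ^ ((k : ℝ) / 2)) :=
        mul_le_mul_of_nonneg_left h7 (by positivity)
    _ = D * (((2 * π) ^ k)⁻¹ * (π / (ε ^ 2 / 2)) ^ ((k : ℝ) / 2)) +
        2 * e0 * (((2 * π) ^ k)⁻¹ * (π / (ε ^ 2 / 4)) ^ ((k : ℝ) / 2)) := by ring
    _ ≤ D * (1 / ε) ^ k + 2 * e0 * (1 / ε) ^ k := by
        have e1 := mul_le_mul_of_nonneg_left h9 hD
        have e2 := mul_le_mul_of_nonneg_left h10 (by positivity : (0 : ℝ) ≤ 2 * e0)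
        linarith
    _ = _ := by ring

end Pool.Agent.Q129.GC
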